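import Pool.Agent.Q61.AD.Fin

/-!
# Non-parabolic bounded distributional solutions of advection-diffusion equations

The torus is `ℝ² / ℤ²`; functions on it are functions on `P = ℝ × ℝ` with period `1` in both
variables (`Per`), and integrals over the torus are integrals over the unit square `Q = [0,1)²`.
`dt`, `dx`, `dy`, `lap` are the time derivative, the two space derivatives and the Laplacian
(`Pool/Agent/Q61/AD/Def.lean`); `D b Φ = ∂_t Φ + b · ∇Φ + ΔΦ`.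
-/

set_option autoImplicit false

open MeasureTheory Set

namespace Pool.Agent.Results.MP_051498_an.BoundedNonparabolic

open Pool.Agent.Q61.AD (P Q Per dt dx dy lap Tst D)

/-- Divergence-free fields on the torus, for every time: `∫ b(t) · ∇ψ = 0` for all smooth `ψ`. -/
def DivFree (b : ℝ → P → P) : Prop :=
  ∀ (t : ℝ) (ψ : P → ℝ), ContDiff ℝ (⊤ : ℕ∞) ψ → Per ψ →
    ∫ x in Q, ((b t x).1 * dx ψ x + (b t x).2 * dy ψ x) = 0

/-- `b` is in `L^r(0,T; L^∞)` for all `1 ≤ r < 2`: it is measurable and `‖b(t)‖_∞ ≤ β(t)` for all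
`t`, with `β ≥ 0` measurable and `∫_0^T β^r < ∞` for all `1 ≤ r < 2`. -/
def InLr (T : ℝ) (b : ℝ → P → P) : Prop :=
  Measurable (fun q : ℝ × P => b q.1 q.2) ∧ (∀ t, Per (b t)) ∧ ∃ β : ℝ → ℝ, Measurable β ∧
    (∀ t x, ‖b t x‖ ≤ β t) ∧ ∀ r : ℝ, 1 ≤ r → r < 2 → IntegrableOn (fun t => β t ^ r) (Ioo 0 T)

/-- Distributional solutions of `∂_t u + b · ∇u = Δu` on `(0,T) × 𝕋²` with datum `u₀`: `u` is
measurable and periodic, `b u` is integrable, and the equation holds for all test functions, which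
are the smooth functions `Φ` on `ℝ × 𝕋²` with `Φ(t) = 0` for all `t ≥ T'`, for some `T' < T`
(their restrictions to `[0,T) × 𝕋²` are the functions in `C_c^∞([0,T) × 𝕋²)`). -/
structure IsSolution (T : ℝ) (b : ℝ → P → P) (u₀ : P → ℝ) (u : ℝ → P → ℝ) : Prop where
  meas : Measurable (fun q : ℝ × P => u q.1 q.2)
  per : ∀ t, Per (u t)
  int : Integrable (fun q : ℝ × P => u q.1 q.2 • b q.1 q.2)
    ((volume.restrict (Ioo 0 T)).prod (volume.restrict Q))
  eq : ∀ Φ : ℝ → P → ℝ, Tst Φ → (∃ T' < T, ∀ t, T' ≤ t → ∀ x, Φ t x = 0) →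
    (∫ t in (0 : ℝ)..T, ∫ x in Q, u t x * D b Φ t x) + ∫ x in Q, u₀ x * Φ 0 x = 0

/-- `(G₁, G₂)` is the weak gradient of `w` on the torus. -/
def WeakGradient (w G₁ G₂ : P → ℝ) : Prop := ∀ ψ : P → ℝ, ContDiff ℝ (⊤ : ℕ∞) ψ → Per ψ →
  (∫ x in Q, w x * dx ψ x = - ∫ x in Q, G₁ x * ψ x) ∧
  ∫ x in Q, w x * dy ψ x = - ∫ x in Q, G₂ x * ψ x

/-- The bounded function `u` is in `L²(0,T; H¹)`: there are measurable functions `G₁`, `G₂` of
`(t, x)` such that `(G₁(t), G₂(t))` is the weak gradient of `u(t)` for almost every `t` in `(0,T)`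
and the integral of `G₁² + G₂²` over `(0,T) × 𝕋²` is finite. -/
def Parabolic (T : ℝ) (u : ℝ → P → ℝ) : Prop :=
  ∃ G₁ G₂ : ℝ → P → ℝ, Measurable (fun q : ℝ × P => G₁ q.1 q.2) ∧
    Measurable (fun q : ℝ × P => G₂ q.1 q.2) ∧
    (∀ᵐ t ∂(volume.restrict (Ioo 0 T)), WeakGradient (u t) (G₁ t) (G₂ t)) ∧
    ∫⁻ t in Ioo 0 T, ∫⁻ x in Q, ENNReal.ofReal (G₁ t x ^ 2 + G₂ t x ^ 2) < ⊤

/-- For every `T > 0` there are a divergence-free field `b` on `[0,T] × 𝕋²` which is in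
`L^r(0,T; L^∞)` for all `r < 2`, and a bounded distributional solution `u` with datum `0` which is
not in `L²(0,T; H¹)`. -/
theorem result (T : ℝ) (hT : 0 < T) : ∃ (b : ℝ → P → P) (u : ℝ → P → ℝ),
    InLr T b ∧ DivFree b ∧ (∀ t x, |u t x| ≤ 8 / 7) ∧ IsSolution T b (fun _ => 0) u ∧
      ¬ Parabolic T u := by
  set R : ℝ := max 4 T with hR
  have hR4 : 4 ≤ R := le_max_left _ _
  have hTR : T ≤ R := le_max_right _ _
  obtain ⟨hfld, hβ0, hr, -⟩ := Pool.Agent.Q61.AD.f2 R hR4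
  obtain ⟨hper, hdiv⟩ := Pool.Agent.Q61.AD.f3 R hR4
  obtain ⟨u, hum, hup, hub, heq, hwin⟩ := Pool.Agent.Q61.AD.flim R hR4
  refine ⟨Pool.Agent.Q61.AD.fb R, u, ⟨hfld.meas, hper, Pool.Agent.Q61.AD.bt R, hfld.measβ, hfld.bd,
    fun r h1 h2 => (hr r h1 h2).mono_set (Ioo_subset_Ioc_self.trans (Ioc_subset_Ioc le_rfl hTR))⟩,
    hdiv, hub, ⟨hum, hup, ?_, ?_⟩, ?_⟩
  · have h1 : Integrable (Pool.Agent.Q61.AD.bt R) (volume.restrict (Ioo 0 T)) :=
      hfld.int.mono_set (Ioo_subset_Ioc_self.trans (Ioc_subset_Ioc le_rfl hTR))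
    have h2 : Integrable (fun q : ℝ × P => 8 / 7 * Pool.Agent.Q61.AD.bt R q.1)
        ((volume.restrict (Ioo 0 T)).prod (volume.restrict Q)) :=
      (h1.comp_fst (volume.restrict Q)).const_mul (8 / 7)
    refine h2.mono' (hum.smul hfld.meas).aestronglyMeasurable (Filter.Eventually.of_forall ?_)
    intro q
    rw [norm_smul]
    exact mul_le_mul (hub q.1 q.2) (hfld.bd q.1 q.2) (norm_nonneg _) (by norm_num)
  · intro Φ hΦ hT'
    obtain ⟨T', hT'T, hT'z⟩ := hT'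
    have h1 := heq Φ hΦ (fun x => hT'z R (by linarith) x)
    simp only [zero_mul, integral_zero, add_zero]
    rw [intervalIntegral.integral_of_le (by linarith)] at h1
    rw [intervalIntegral.integral_of_le hT.le]
    refine Eq.trans (Eq.symm ?_) h1
    refine setIntegral_eq_of_subset_of_forall_sdiff_eq_zero measurableSet_Ioc
      (Ioc_subset_Ioc le_rfl hTR) fun t ht => ?_
    have h3 : T' < t := by
      by_contra h
      push Not at h
      exact ht.2 ⟨ht.1.1, by linarith⟩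
    simp [Pool.Agent.Q61.AD.D_zero hT'z h3]
  · rintro ⟨G₁, G₂, h1, h2, h3, h4⟩
    exact h4.ne (Pool.Agent.Q61.AD.fnp R T u hR4 hT hTR hum hub hwin G₁ G₂ h1 h2 h3)

end Pool.Agent.Results.MP_051498_an.BoundedNonparabolic
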